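import Pool.Agent.Lib.MP_5c318e_ag.Bo.T2
import Pool.Agent.Lib.MP_5c318e_ag.S.CFub
import Pool.Agent.Lib.MP_5c318e_ag.C.CDefs

/-! Tangent fields over a curve and admissible test functions. -/

set_option autoImplicit false
namespace Pool.Agent.Lib.MP_5c318e_ag
open MeasureTheory Set Filter Topology

variable {ν K M : Type} [Fintype ν] [DecidableEq ν] [Field K] [Algebra ℂ K] [Field M] [Algebra ℂ M]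
  [Algebra K M] [IsScalarTower ℂ K M] {B : Cht Unit K}

/-- admissible test functions of defect `ε` -/
structure Rel.Adm (T : Rel B ν M) (χ y Φ : Pt T.X.O → ℝ) (v : Pt T.X.O → Unit ⊕ ν → ℂ)
    (P : Pt B.O → ℝ) (ε : ℝ) (u : Pt T.X.O → ℝ) : Prop where
  sm : T.X.D.Sm u
  lev : ∀ x, -(ε * T.X.D.levi Φ x (v x)) ≤ T.X.D.levi u x (v x)
  loc : ∃ g : B.O, g ≠ 0 ∧ ∀ b0 : Pt B.O, b0 g ≠ 0 → ∃ C : ℝ, ∀ᶠ b in 𝓝 b0,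
    ∀ x : T.Fib b, u x.1 ≤ C * y x.1 + C
  fib : ∃ C : ℝ, ∀ᵐ b ∂B.D.μ, ∫⁻ x, ENNReal.ofReal (u x.1 * Real.exp (-χ x.1)) ∂(T.fib b).μ ≤
    ENNReal.ofReal (ε * P b + C)

/-- what block A gives -/
structure Rel.Tan (T : Rel B ν M) (χ y Φ α : Pt T.X.O → ℝ) (v : Pt T.X.O → Unit ⊕ ν → ℂ)
    (P : Pt B.O → ℝ) (E : ℝ) : Prop where
  smχ : T.X.D.Sm χ
  fl : T.X.D.Fl χ v
  vt : ∀ x, v x (Sum.inl ()) = 1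
  smy : T.X.D.Sm y
  y0 : ∀ x, 0 ≤ y x
  yi : Integrable (fun x => T.X.D.levi y x (v x) * Real.exp (-χ x)) T.X.D.μ
  tan : ∫ x, T.X.D.levi y x (v x) * Real.exp (-χ x) ∂T.X.D.μ = 0
  psh : T.X.D.Psh Φ
  l2 : T.X.D.L2 Φ χ v
  exh : B.D.Exh P
  P0 : ∀ b, 0 ≤ P b
  md : ∀ g : B.O, Md P fun b => ‖b g‖
  le : ∃ A : ℝ, ∀ p ξ, B.D.levi P (p.res T.inc) (fun i => ξ (Sum.inl i)) ≤ A * T.X.D.levi Φ p ξ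
  low : ∃ c : ℝ, 0 < c ∧ ∀ᵐ b ∂B.D.μ,
    ENNReal.ofReal c ≤ ∫⁻ x, ENNReal.ofReal (Real.exp (-χ x.1)) ∂(T.fib b).μ
  ym : ∃ C : ℝ, ∀ᵐ b ∂B.D.μ,
    ∫⁻ x, ENNReal.ofReal (y x.1 * Real.exp (-χ x.1)) ∂(T.fib b).μ ≤ ENNReal.ofReal C
  mα : Measurable α
  α0 : ∀ x, 0 ≤ α x
  αi : Integrable (fun x => α x * Real.exp (-χ x)) T.X.D.μ
  E0 : 0 ≤ E
  star : ∀ ε : ℝ, 0 < ε → ∃ C : ℝ, 0 ≤ C ∧ ∀ (f : Pt T.X.O → ℝ) (L : ℝ), 0 ≤ L → T.X.D.Sm f →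
    (∀ x, 0 ≤ f x ∧ f x ≤ L) → T.X.D.Sq χ (T.X.D.vr v f) →
    ∫ x, f x * T.X.D.levi Φ x (v x) * Real.exp (-χ x) ∂T.X.D.μ ≤
      E * (∫ x, f x * α x * Real.exp (-χ x) ∂T.X.D.μ) + ε * L + C * √(T.X.D.en χ (T.X.D.vr v f))

end Pool.Agent.Lib.MP_5c318e_ag
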