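import Pool.Agent.Lib.MP_5c318e_ag.F2.Mom
import Pool.Agent.Lib.MP_5c318e_ag.C.Siz
import Pool.Agent.Lib.MP_5c318e_ag.S.LocA

/-! Small exponential moments of the size of a curve chart for the Fubini-Study area. -/

set_option autoImplicit false

namespace Pool.Agent.Lib.MP_5c318e_ag

open MeasureTheory Set Filter
open scoped ENNReal

theorem Ali.far {g : MvPolynomial Unit ℂ} (hg : g ≠ 0) : ∃ R κ : ℝ, 0 ≤ R ∧ 0 < κ ∧
    ∀ a : Unit → ℂ, R < ‖a‖ → κ ≤ ‖MvPolynomial.eval a g‖ := by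
  set p := MvPolynomial.uniqueAlgEquiv ℂ Unit g with hp
  have p0 : p ≠ 0 := (map_ne_zero_iff _ (MvPolynomial.uniqueAlgEquiv ℂ Unit).injective).2 hg
  refine ⟨1 + (p.roots.map fun r => ‖r‖).sum, ‖p.leadingCoeff‖,
    add_nonneg zero_le_one (Multiset.sum_nonneg fun x hx => ?_),
    norm_pos_iff.2 (Polynomial.leadingCoeff_ne_zero.2 p0), fun a ha => ?_⟩
  · obtain ⟨r, -, rfl⟩ := Multiset.mem_map.1 hx
    exact norm_nonneg _
  have e : MvPolynomial.eval a g = p.eval (a default) :=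
    (MvPolynomial.eval₂_uniqueAlgEquiv (f := g) (φ := RingHom.id ℂ) (a := a)).symm
  have ha' : ‖a‖ = ‖a default‖ := by simp [Pi.norm_def]
  rw [e, (IsAlgClosed.splits p).eval_eq_prod_roots, norm_mul]
  refine le_mul_of_one_le_right (norm_nonneg _) ?_
  have h1 : ∀ r ∈ p.roots, 1 ≤ ‖a default - r‖ := fun r hr => by
    have h2 : ‖r‖ ≤ (p.roots.map fun r => ‖r‖).sum :=
      Multiset.single_le_sum (fun x hx => by
        obtain ⟨r, -, rfl⟩ := Multiset.mem_map.1 hx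
        exact norm_nonneg _) _ (Multiset.mem_map_of_mem _ hr)
    linarith [norm_sub_norm_le (a default) r]
  generalize p.roots = s at h1
  induction s using Multiset.induction_on with
  | empty => simp
  | cons r s ih =>
    rw [Multiset.map_cons, Multiset.prod_cons, norm_mul]
    exact one_le_mul_of_one_le_of_one_le (h1 r (Multiset.mem_cons_self _ _))
      (ih fun r hr => h1 r (Multiset.mem_cons_of_mem hr))

theorem Ali.fs : ∫⁻ a : Unit → ℂ, ENNReal.ofReal (((1 + ‖a‖ ^ 2) ^ 2)⁻¹ * (1 + ‖a‖)) ≠ ⊤ := by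
  have h0 := integrable_rpow_neg_one_add_norm_sq (E := Unit → ℂ) (μ := volume) (r := 3)
    (by rw [Module.finrank_pi_fintype]; simp; norm_num)
  refine ne_top_of_le_ne_top (h0.const_mul 2).lintegral_lt_top.ne (lintegral_mono fun a => ?_)
  refine ENNReal.ofReal_le_ofReal ?_
  have h1 : (0 : ℝ) < 1 + ‖a‖ ^ 2 := by positivity
  have h2 : (1 + ‖a‖ ^ 2) ^ (-3 / 2 : ℝ) = ((1 + ‖a‖ ^ 2) ^ 2)⁻¹ * √(1 + ‖a‖ ^ 2) := by
    rw [Real.sqrt_eq_rpow, ← Real.rpow_natCast (1 + ‖a‖ ^ 2) 2, ← Real.rpow_neg h1.le, ← Real.rpow_add h1]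
    norm_num
  have h3 : 1 + ‖a‖ ≤ 2 * √(1 + ‖a‖ ^ 2) := by
    have h4 : 1 ≤ √(1 + ‖a‖ ^ 2) := Real.le_sqrt_of_sq_le (by nlinarith [sq_nonneg ‖a‖])
    have h5 : ‖a‖ ≤ √(1 + ‖a‖ ^ 2) := Real.le_sqrt_of_sq_le (by linarith)
    linarith
  rw [h2, mul_left_comm]
  gcongr

variable {F : Type} [Field F] [Algebra ℂ F]

theorem Cht.ali_siz (c : Cht Unit F) (h : Fini (Algebra.ofId ℂ c.O) c.z) : ∃ η : ℝ, 0 < η ∧
    ∫⁻ b, ENNReal.ofReal (((1 + ‖b (c.z ())‖ ^ 2) ^ 2)⁻¹ * Real.exp (η * c.siz b)) ∂c.D.μ ≠ ⊤ := by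
  classical
  have hm : c.D.Mod fun b => ENNReal.ofReal (Real.exp (c.siz b)) := by
    have h1 : ∀ a : c.O, c.D.Mod fun b => ENNReal.ofReal ‖b a‖ := fun a => by
      simpa only [Pt.ev_coe] using c.mod_ev h a
    refine Front.mod_mono (Front.mod_add (Front.mod_sum c.gens fun a _ => Front.mod_pow (h1 a) 2)
      (Front.mod_const c.D ENNReal.one_ne_top)) (.of_forall fun b => le_of_eq ?_)
    rw [Cht.siz, Real.exp_log (by positivity), ENNReal.ofReal_add (by positivity) zero_le_one,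
      ENNReal.ofReal_one, ENNReal.ofReal_sum_of_nonneg fun _ _ => by positivity]
    simp only [ENNReal.ofReal_pow (norm_nonneg _)]
  obtain ⟨g, hg, A, N, H⟩ := hm
  obtain ⟨R, κ, R0, κ0, hfar⟩ := Ali.far hg
  obtain ⟨e, he⟩ := F2.cht1 c h (c.aeval_ne hg)
  obtain ⟨C, -⟩ := c.cov h
  set s : ℝ := 1 / (e + 1) with hs
  have s0 : 0 < s := by positivity
  have s1 : s ≤ 1 := by
    rw [hs, div_le_one (by positivity)]
    linarith [(Nat.cast_nonneg e : (0 : ℝ) ≤ e)]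
  have s2 : e * s < 2 := by
    rw [hs, mul_one_div, div_lt_iff₀ (by positivity)]
    linarith [(Nat.cast_nonneg e : (0 : ℝ) ≤ e)]
  set A1 := max A 1 with hA1
  have A10 : 1 ≤ A1 := le_max_right _ _
  have hmR : MeasurableSet {q | ‖c.D.π q‖ ≤ R} :=
    (isClosed_le c.D.loc.continuous.norm continuous_const).measurableSet
  refine ⟨s / (N + 1), by positivity, ne_top_of_le_ne_top (b :=
    ∫⁻ b, (ENNReal.ofReal (A1 * (1 + κ ^ (-s))) *
        ENNReal.ofReal (((1 + ‖c.D.π b‖ ^ 2) ^ 2)⁻¹ * (1 + ‖c.D.π b‖)) +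
      ENNReal.ofReal (A1 * (1 + R)) * {q | ‖c.D.π q‖ ≤ R}.indicator
        (fun q => ‖q (MvPolynomial.aeval c.z g)‖ₑ ^ (-s)) b) ∂c.D.μ) ?_
    (lintegral_mono_ae ((c.D.ae_of_gen ⟨g, hg, fun _ hp => hp⟩).mono fun b hb => ?_))⟩
  · have m1 : Measurable fun a : Unit → ℂ =>
        ENNReal.ofReal (((1 + ‖a‖ ^ 2) ^ 2)⁻¹ * (1 + ‖a‖)) := by fun_prop
    have m2 : Measurable fun b => ENNReal.ofReal (A1 * (1 + κ ^ (-s))) *
        ENNReal.ofReal (((1 + ‖c.D.π b‖ ^ 2) ^ 2)⁻¹ * (1 + ‖c.D.π b‖)) :=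
      (m1.comp c.D.loc.continuous.measurable).const_mul _
    rw [lintegral_add_left m2,
      lintegral_const_mul' _ _ ENNReal.ofReal_ne_top,
      lintegral_const_mul' _ _ ENNReal.ofReal_ne_top, lintegral_indicator hmR]
    exact ENNReal.add_ne_top.2 ⟨ENNReal.mul_ne_top ENNReal.ofReal_ne_top
      (ne_top_of_le_ne_top (ENNReal.mul_ne_top (ENNReal.natCast_ne_top _) Ali.fs) (C.lint_le m1)),
      ENNReal.mul_ne_top ENNReal.ofReal_ne_top (he s s0 s2 R R0).ne⟩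
  have hb' : MvPolynomial.eval (c.D.π b) g ≠ 0 := hb
  have e0 : ‖b (c.z ())‖ = ‖c.D.π b‖ := by simp [Pi.norm_def, c.π_eq]
  set G := ‖MvPolynomial.eval (c.D.π b) g‖ with hG
  set w := 1 + ‖c.D.π b‖ with hw
  have G0 : 0 < G := norm_pos_iff.2 hb'
  have w1 : 1 ≤ w := le_add_of_nonneg_right (norm_nonneg _)
  have x1 : 1 ≤ w / G + w := le_add_of_nonneg_of_le (by positivity) w1
  have h1 : Real.exp (c.siz b) ≤ A1 * (w / G + w) ^ (N + 1) := by
    refine (ENNReal.ofReal_le_ofReal_iff (by positivity)).1 ((H b hb').trans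
      (ENNReal.ofReal_le_ofReal ?_))
    exact mul_le_mul (le_max_left _ _) (pow_le_pow_right₀ x1 (Nat.le_succ N)) (by positivity)
      (by positivity)
  have h2 : Real.exp (s / (N + 1) * c.siz b) ≤ A1 * (w * (1 + G ^ (-s))) := by
    rw [mul_comm, Real.exp_mul]
    refine (Real.rpow_le_rpow (Real.exp_pos _).le h1 (by positivity)).trans ?_
    rw [Real.mul_rpow (by positivity) (by positivity), ← Real.rpow_natCast,
      ← Real.rpow_mul (by positivity), Nat.cast_succ, mul_div_cancel₀ _ (by positivity)]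
    refine mul_le_mul ?_ ?_ (by positivity) (by positivity)
    · refine Real.rpow_le_self_of_one_le A10 ?_
      rw [div_le_one (by positivity)]
      linarith [(Nat.cast_nonneg N : (0 : ℝ) ≤ N)]
    · rw [show w / G + w = w * (1 + G⁻¹) by ring, Real.mul_rpow (by positivity) (by positivity)]
      refine mul_le_mul (Real.rpow_le_self_of_one_le w1 s1) ?_ (by positivity) (by positivity)
      refine (Real.rpow_add_le_add_rpow zero_le_one (by positivity) s0.le s1).trans_eq ?_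
      rw [Real.one_rpow, Real.inv_rpow G0.le, Real.rpow_neg G0.le]
  have hq : ((1 + ‖c.D.π b‖ ^ 2) ^ 2)⁻¹ ≤ 1 :=
    inv_le_one_of_one_le₀ (one_le_pow₀ (le_add_of_nonneg_right (by positivity)))
  set u := ((1 + ‖c.D.π b‖ ^ 2) ^ 2)⁻¹ with hu
  have u0 : 0 ≤ u := by positivity
  have k0 : 0 ≤ κ ^ (-s) := by positivity
  have g0 : 0 ≤ G ^ (-s) := by positivity
  rw [e0, ← ENNReal.ofReal_mul (by positivity)]
  refine (ENNReal.ofReal_le_ofReal (mul_le_mul_of_nonneg_left h2 u0)).trans ?_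
  by_cases hR : ‖c.D.π b‖ ≤ R
  · rw [indicator_of_mem (by exact hR), c.apply_aeval, ← ofReal_norm,
      ENNReal.ofReal_rpow_of_pos G0, ← ENNReal.ofReal_mul (by positivity),
      ← ENNReal.ofReal_add (by positivity) (by positivity)]
    refine ENNReal.ofReal_le_ofReal ?_
    have h3 : u * w ≤ 1 + R := by nlinarith
    have h4 : u * w * G ^ (-s) ≤ (1 + R) * G ^ (-s) := mul_le_mul_of_nonneg_right h3 g0
    have h5 : 0 ≤ κ ^ (-s) * (u * w) := by positivity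
    nlinarith
  · refine le_add_right (ENNReal.ofReal_le_ofReal ?_)
    have h3 : G ^ (-s) ≤ κ ^ (-s) :=
      Real.rpow_le_rpow_of_nonpos κ0 (hfar _ (not_le.1 hR)) (neg_nonpos.2 s0.le)
    have h4 : u * w * G ^ (-s) ≤ u * w * κ ^ (-s) := mul_le_mul_of_nonneg_left h3 (by positivity)
    nlinarith

/-- the form used for the data of the polar primes -/
theorem Cht.ali (c : Cht Unit F) (h : Fini (Algebra.ofId ℂ c.O) c.z) {s0 : Pt c.O → ℝ} {C : ℝ}
    (hs : ∀ b, s0 b ≤ C * c.siz b + C) : ∃ η : ℝ, 0 < η ∧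
    ∫⁻ b, ENNReal.ofReal (((1 + ‖b (c.z ())‖ ^ 2) ^ 2)⁻¹ * Real.exp (η * s0 b)) ∂c.D.μ ≠ ⊤ := by
  obtain ⟨η, η0, H⟩ := c.ali_siz h
  have C0 : 0 < |C| + 1 := by positivity
  refine ⟨η / (|C| + 1), by positivity, ne_top_of_le_ne_top
    (ENNReal.mul_ne_top (ENNReal.ofReal_ne_top (r := Real.exp η)) H) ?_⟩
  rw [← lintegral_const_mul' _ _ ENNReal.ofReal_ne_top]
  refine lintegral_mono fun b => ?_
  rw [← ENNReal.ofReal_mul (Real.exp_pos _).le, mul_left_comm, ← Real.exp_add]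
  refine ENNReal.ofReal_le_ofReal (mul_le_mul_of_nonneg_left (Real.exp_le_exp.2 ?_) (by positivity))
  rw [div_mul_eq_mul_div, div_le_iff₀ C0]
  have h1 := c.siz_nonneg b
  have h2 : s0 b ≤ (1 + c.siz b) * (|C| + 1) := by nlinarith [hs b, le_abs_self C]
  nlinarith

end Pool.Agent.Lib.MP_5c318e_ag
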