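import Pool.Agent.Lib.MP_5c318e_ag.Iv.Ali
import Pool.Agent.Lib.MP_5c318e_ag.Ar.Fs
import Pool.Agent.Lib.MP_5c318e_ag.Me.Met
/-! A small exponential moment of a potential of the base curve for the Fubini-Study density. -/
set_option autoImplicit false
set_option linter.unusedSectionVars false
namespace Pool.Agent.Lib.MP_5c318e_ag
open MeasureTheory

variable {ν K M : Type} [Fintype ν] [DecidableEq ν] [Field K] [Algebra ℂ K] [Field M] [Algebra ℂ M]
  [Algebra K M] [IsScalarTower ℂ K M]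

theorem Dat.ali_field (d : Dat Unit K ν M) {P : Pt d.B.O → ℝ} (hP : d.B.Met P) : ∃ η : ℝ, 0 < η ∧
    ∫⁻ b, ENNReal.ofReal (d.fs b * Real.exp (η * P b)) ∂d.B.D.μ ≠ ⊤ := by
  obtain ⟨A, -, hA⟩ := hP.le
  exact d.B.ali d.T.finB hA

end Pool.Agent.Lib.MP_5c318e_ag
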