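import Pool.Agent.Lib.MP_5c318e_ag.Bo.T2

/-! Green's inequality for a tangent field, localised by a cutoff function of a size function. -/

set_option autoImplicit false
set_option linter.unusedSectionVars false

namespace Pool.Agent.Lib.MP_5c318e_ag

open MeasureTheory Set Filter Topology Complex
open scoped ContDiff ComplexConjugate

noncomputable section

namespace Iv

/-- the cutoff function -/
def th (r : ℝ) : ℝ := Real.smoothTransition (1 - r)

theorem th_sm : ContDiff ℝ ∞ th :=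
  Real.smoothTransition.contDiff.comp (contDiff_const.sub contDiff_id)

theorem th_zero {r : ℝ} (h : 1 ≤ r) : th r = 0 :=
  Real.smoothTransition.zero_of_nonpos (by linarith)

theorem th_abs (r : ℝ) : |th r| ≤ 1 := by
  rw [th, abs_of_nonneg (Real.smoothTransition.nonneg _)]
  exact Real.smoothTransition.le_one _

theorem th_lim {z : ℕ → ℝ} (h : Tendsto z atTop (𝓝 0)) : Tendsto (fun n => th (z n)) atTop (𝓝 1) := by
  have := (th_sm.continuous.tendsto 0).comp h
  rwa [show th 0 = 1 from Real.smoothTransition.one_of_one_le (by norm_num)] at this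

theorem exists_bd {G : ℝ → ℝ} (hG : ContDiff ℝ ∞ G) (h1 : ∀ r, 1 ≤ r → G r = 0) :
    ∃ C : ℝ, 0 ≤ C ∧ ∀ r, 0 ≤ r → (|deriv G r| ≤ C ∧ |deriv (deriv G) r| ≤ C) ∧
      (1 < r → deriv G r = 0 ∧ deriv (deriv G) r = 0) := by
  have d1 : ContDiff ℝ ∞ (deriv G) := (contDiff_infty_iff_deriv.1 hG).2
  have d2 : ContDiff ℝ ∞ (deriv (deriv G)) := (contDiff_infty_iff_deriv.1 d1).2
  obtain ⟨C1, b1⟩ := (isCompact_Icc (a := (0 : ℝ)) (b := 1)).exists_bound_of_continuousOn
    d1.continuous.continuousOn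
  obtain ⟨C2, b2⟩ := (isCompact_Icc (a := (0 : ℝ)) (b := 1)).exists_bound_of_continuousOn
    d2.continuous.continuousOn
  have z1 : ∀ r, 1 < r → deriv G r = 0 := fun r hr => by
    have : G =ᶠ[𝓝 r] fun _ => 0 := (eventually_gt_nhds hr).mono fun s hs => h1 s hs.le
    rw [this.deriv_eq, deriv_const]
  have z2 : ∀ r, 1 < r → deriv (deriv G) r = 0 := fun r hr => by
    have : deriv G =ᶠ[𝓝 r] fun _ => 0 := (eventually_gt_nhds hr).mono z1
    rw [this.deriv_eq, deriv_const]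
  refine ⟨|C1| + |C2|, by positivity, fun r r0 => ⟨?_, fun hr => ⟨z1 r hr, z2 r hr⟩⟩⟩
  rcases le_or_gt r 1 with hr | hr
  · have e1 := (b1 r ⟨r0, hr⟩).trans (le_abs_self _)
    have e2 := (b2 r ⟨r0, hr⟩).trans (le_abs_self _)
    rw [Real.norm_eq_abs] at e1 e2
    exact ⟨by linarith [abs_nonneg C2], by linarith [abs_nonneg C1]⟩
  · rw [z1 r hr, z2 r hr, abs_zero]
    exact ⟨by positivity, by positivity⟩

/-- the logistic function and its primitive -/
def sg (r : ℝ) : ℝ := Real.exp r / (1 + Real.exp r)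
def ch (r : ℝ) : ℝ := Real.log (1 + Real.exp r)

theorem one_exp (r : ℝ) : 0 < 1 + Real.exp r := by positivity

theorem ch_sm : ContDiff ℝ ∞ ch :=
  (contDiff_const.add Real.contDiff_exp).log fun r => (one_exp r).ne'

theorem ch_deriv : deriv ch = sg := by
  funext r
  exact (((Real.hasDerivAt_exp r).const_add 1).log (one_exp r).ne').deriv

theorem sg_sm : ContDiff ℝ ∞ sg := ch_deriv ▸ (contDiff_infty_iff_deriv.1 ch_sm).2

theorem sg_deriv (r : ℝ) : deriv sg r = Real.exp r / (1 + Real.exp r) ^ 2 := by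
  have := ((Real.hasDerivAt_exp r).div ((Real.hasDerivAt_exp r).const_add 1) (one_exp r).ne').deriv
  refine Eq.trans this ?_
  congr 1
  ring

theorem sg_pos (r : ℝ) : 0 < deriv sg r := by rw [sg_deriv]; positivity

theorem sg_mem (r : ℝ) : 0 ≤ sg r ∧ sg r ≤ 1 :=
  ⟨by unfold sg; positivity, (div_le_one (one_exp r)).2 (by linarith)⟩

theorem ch_nonneg (r : ℝ) : 0 ≤ ch r := Real.log_nonneg (by linarith [Real.exp_pos r])

theorem ch_le (r : ℝ) : ch r ≤ max r 0 + 1 := by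
  have h1 := Real.exp_le_exp.2 (le_max_left r 0)
  have h2 := Real.one_le_exp (le_max_right r 0)
  have h3 := Real.add_one_le_exp 1
  rw [ch, Real.log_le_iff_le_exp (one_exp r), Real.exp_add]
  nlinarith

/-- the step function is dominated by the logistic function -/
theorem exists_step : ∃ C : ℝ, 0 ≤ C ∧ ∀ r, deriv Real.smoothTransition r ^ 2 ≤ C * deriv sg r := by
  have d1 : Continuous (deriv Real.smoothTransition) :=
    (contDiff_infty_iff_deriv.1 Real.smoothTransition.contDiff).2.continuous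
  have d2 : Continuous (deriv sg) := (contDiff_infty_iff_deriv.1 sg_sm).2.continuous
  obtain ⟨C, b⟩ := (isCompact_Icc (a := (0 : ℝ)) (b := 1)).exists_bound_of_continuousOn
    ((d1.pow 2).div d2 fun r => (sg_pos r).ne').continuousOn
  refine ⟨|C|, abs_nonneg C, fun r => ?_⟩
  have z : ∀ c : ℝ, (Real.smoothTransition =ᶠ[𝓝 r] fun _ => c) →
      deriv Real.smoothTransition r ^ 2 ≤ |C| * deriv sg r := fun c h => by
    rw [h.deriv_eq, deriv_const, sq, mul_zero]
    exact mul_nonneg (abs_nonneg C) (sg_pos r).le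
  rcases lt_or_ge r 0 with h0 | h0
  · exact z 0 ((eventually_lt_nhds h0).mono fun s hs => Real.smoothTransition.zero_of_nonpos hs.le)
  rcases lt_or_ge 1 r with h1 | h1
  · exact z 1 ((eventually_gt_nhds h1).mono fun s hs => Real.smoothTransition.one_of_one_le hs.le)
  exact (div_le_iff₀ (sg_pos r)).1 (((le_abs_self _).trans (b r ⟨h0, h1⟩)).trans (le_abs_self C))

variable {ι : Type} [Fintype ι] [DecidableEq ι] {S : Type} [TopologicalSpace S] [MeasurableSpace S]
  [BorelSpace S] [T2Space S] [SigmaCompactSpace S] {D : RD ι S}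
  {χ y z a U k : S → ℝ} {v : S → ι → ℂ}

variable (D) in
/-- the energy density of the size function `z` -/
def en0 (v : S → ι → ℂ) (z a : S → ℝ) (x : S) : ℝ :=
  Real.exp (-z x / 1) * (a x - D.levi z x (v x) + ‖D.vr v z x‖ ^ 2)

variable (D) in
/-- the majorant of the derivatives of the cutoff function -/
def maj (v : S → ι → ℂ) (z a : S → ℝ) (x : S) : ℝ :=
  if z x ≤ 1 then Real.exp 1 * en0 D v z a x + a x else 0

theorem en0_nonneg (za : ∀ x, D.levi z x (v x) ≤ a x) (x : S) : 0 ≤ en0 D v z a x :=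
  mul_nonneg (Real.exp_pos _).le (add_nonneg (sub_nonneg.2 (za x)) (sq_nonneg _))

theorem maj_nonneg (a0 : ∀ x, 0 ≤ a x) (za : ∀ x, D.levi z x (v x) ≤ a x) (x : S) :
    0 ≤ maj D v z a x := by
  unfold maj
  split_ifs
  · exact add_nonneg (mul_nonneg (Real.exp_pos _).le (en0_nonneg za x)) (a0 x)
  · exact le_rfl

theorem en0_cont (hv : ∀ j, D.Sm fun x => v x j) (hz : D.Sm z) (ha : Continuous a) :
    Continuous (en0 D v z a) :=
  (hz.comp (RD.Bo.ex_smooth 1)).cont.mul ((ha.sub (RD.Bo.lv_sm hz hv).cont).add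
    ((RD.Bo.vr_sm hv hz).cont.norm.pow 2))

theorem maj_meas (hv : ∀ j, D.Sm fun x => v x j) (hz : D.Sm z) (ha : Continuous a) :
    Measurable (maj D v z a) :=
  Measurable.ite (measurableSet_le hz.cont.measurable measurable_const)
    ((continuous_const.mul (en0_cont hv hz ha)).add ha).measurable measurable_const

theorem maj_ge (a0 : ∀ x, 0 ≤ a x) (za : ∀ x, D.levi z x (v x) ≤ a x) {x : S} (hx : z x ≤ 1) :
    |D.levi z x (v x)| + ‖D.vr v z x‖ ^ 2 ≤ maj D v z a x := by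
  have e : 1 ≤ Real.exp 1 * Real.exp (-z x / 1) := by
    rw [← Real.exp_add]
    exact Real.one_le_exp (by linarith)
  have h0 : 0 ≤ a x - D.levi z x (v x) + ‖D.vr v z x‖ ^ 2 :=
    add_nonneg (sub_nonneg.2 (za x)) (sq_nonneg _)
  have h1 := mul_le_mul_of_nonneg_right e h0
  have h2 : |D.levi z x (v x)| ≤ a x - D.levi z x (v x) + a x :=
    abs_le.2 ⟨by linarith [a0 x], by linarith [za x, a0 x, sub_nonneg.2 (za x)]⟩
  rw [maj, if_pos hx, en0, ← mul_assoc]
  linarith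

theorem maj_int (hχ : D.Sm χ) (h : D.Fl χ v) (hz : D.Sm z) (z0 : ∀ x, 0 ≤ z x) (ha : Continuous a)
    (a0 : ∀ x, 0 ≤ a x) (za : ∀ x, D.levi z x (v x) ≤ a x)
    (ai : Integrable (fun x => a x * Real.exp (-χ x)) D.μ) :
    Integrable (fun x => maj D v z a x * Real.exp (-χ x)) D.μ ∧
      ∫ x, maj D v z a x * Real.exp (-χ x) ∂D.μ ≤
        (Real.exp 1 + 1) * ∫ x, a x * Real.exp (-χ x) ∂D.μ := by
  have e : ∀ x, D.levi (fun p => Real.exp (-z p / 1)) x (v x) =
      en0 D v z a x - Real.exp (-z x / 1) * a x := fun x => by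
    rw [RD.Bo.levi_ex v hz, en0]
    ring
  have ea : ∀ x, Real.exp (-z x / 1) * a x ≤ a x := fun x =>
    mul_le_of_le_one_left (a0 x) (RD.Bo.ex_le (z0 x) one_pos)
  obtain ⟨-, -, i, i0⟩ := h.levi_zero hχ (hz.comp (RD.Bo.ex_smooth 1)) (M := 1)
    (fun x => ⟨(Real.exp_pos _).le, RD.Bo.ex_le (z0 x) one_pos⟩) a0
    (fun x => by rw [e]; linarith [en0_nonneg (a := a) za x, ea x]) ai
  have b : ∀ x, maj D v z a x * Real.exp (-χ x) ≤ (Real.exp 1 + 1) * (a x * Real.exp (-χ x)) +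
      Real.exp 1 * (D.levi (fun p => Real.exp (-z p / 1)) x (v x) * Real.exp (-χ x)) := fun x => by
    have h1 : maj D v z a x ≤ Real.exp 1 * en0 D v z a x + a x := by
      unfold maj
      split_ifs
      · exact le_rfl
      · exact add_nonneg (mul_nonneg (Real.exp_pos _).le (en0_nonneg za x)) (a0 x)
    have h2 := mul_le_mul_of_nonneg_left (ea x) (Real.exp_pos 1).le
    rw [e, ← mul_assoc, ← mul_assoc, ← add_mul]
    exact mul_le_mul_of_nonneg_right (by linarith) (Real.exp_pos _).le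
  have p0 : ∀ x, 0 ≤ maj D v z a x * Real.exp (-χ x) := fun x =>
    mul_nonneg (maj_nonneg a0 za x) (Real.exp_pos _).le
  refine ⟨((ai.const_mul _).add (i.const_mul _)).mono'
    ((maj_meas h.sm hz ha).mul hχ.neg.rexp.cont.measurable).aestronglyMeasurable
    (.of_forall fun x => (Real.norm_of_nonneg (p0 x)).trans_le (b x)), ?_⟩
  rw [← integral_const_mul]
  exact RD.Bo.mono0 (ai.const_mul _) i i0 _ p0 b

theorem int_of_lint {μ : Measure S} {f g : S → ℝ} (hf : Measurable f) (f0 : ∀ x, 0 ≤ f x)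
    (g0 : ∀ x, 0 ≤ g x) (hg : Integrable g μ) {c : ℝ} (c0 : 0 ≤ c)
    (h : ∫⁻ x, ENNReal.ofReal (f x) ∂μ ≤ ENNReal.ofReal c * ∫⁻ x, ENNReal.ofReal (g x) ∂μ) :
    Integrable f μ ∧ ∫ x, f x ∂μ ≤ c * ∫ x, g x ∂μ := by
  rw [← ofReal_integral_eq_lintegral_ofReal hg (.of_forall g0), ← ENNReal.ofReal_mul c0] at h
  have i : Integrable f μ := ⟨hf.aestronglyMeasurable,
    (hasFiniteIntegral_iff_ofReal (.of_forall f0)).2 (h.trans_lt ENNReal.ofReal_lt_top)⟩
  rw [← ofReal_integral_eq_lintegral_ofReal i (.of_forall f0)] at h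
  exact ⟨i, (ENNReal.ofReal_le_ofReal_iff (mul_nonneg c0 (integral_nonneg g0))).1 h⟩

theorem core : ∃ C0 : ℝ, 0 ≤ C0 ∧ ∀ {χ y z a U k : S → ℝ} {v : S → ι → ℂ}, D.Sm χ → D.Fl χ v →
    D.Sm y → (∀ x, 0 ≤ y x) → Integrable (fun x => D.levi y x (v x) * Real.exp (-χ x)) D.μ →
    ∫ x, D.levi y x (v x) * Real.exp (-χ x) ∂D.μ = 0 → D.Sm z → (∀ x, 0 ≤ z x) → Continuous a →
    (∀ x, 0 ≤ a x) → (∀ x, D.levi z x (v x) ≤ a x) →
    Integrable (fun x => a x * Real.exp (-χ x)) D.μ → D.Sm U → (∀ x, 0 ≤ U x) →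
    (∃ C : ℝ, ∀ x, z x ≤ 1 → U x ≤ C * y x + C) → (∀ x, 0 ≤ k x) →
    (∀ x, -k x ≤ D.levi U x (v x)) → Integrable (fun x => k x * Real.exp (-χ x)) D.μ →
    ∀ {cU cy : ℝ}, 0 ≤ cU → 0 ≤ cy →
    ∫⁻ x, ENNReal.ofReal (U x * (maj D v z a x * Real.exp (-χ x))) ∂D.μ ≤
      ENNReal.ofReal cU * ∫⁻ x, ENNReal.ofReal (maj D v z a x * Real.exp (-χ x)) ∂D.μ →
    ∫⁻ x, ENNReal.ofReal (y x * (maj D v z a x * Real.exp (-χ x))) ∂D.μ ≤
      ENNReal.ofReal cy * ∫⁻ x, ENNReal.ofReal (maj D v z a x * Real.exp (-χ x)) ∂D.μ →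
    Integrable (fun x => th (z x) ^ 2 * (D.levi U x (v x) + k x) * Real.exp (-χ x)) D.μ ∧
      ∫ x, th (z x) ^ 2 * (D.levi U x (v x) + k x) * Real.exp (-χ x) ∂D.μ ≤
        (∫ x, k x * Real.exp (-χ x) ∂D.μ) + C0 * cU * ∫ x, a x * Real.exp (-χ x) ∂D.μ := by
  obtain ⟨C1, c1, b1⟩ := exists_bd th_sm fun _ => th_zero
  have s2 : ContDiff ℝ ∞ fun r => th r ^ 2 := th_sm.pow 2
  obtain ⟨C2, c2, b2⟩ := exists_bd s2 fun r hr => by rw [th_zero hr]; ring
  refine ⟨C2 * (Real.exp 1 + 1), by positivity, ?_⟩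
  intro χ y z a U k v hχ h hy y0 yi hQ hz z0 ha a0 za ai hU U0 ⟨C, UC⟩ k0 hk ki cU cy u0 v0 fU fy
  obtain ⟨mi, mle⟩ := maj_int hχ h hz z0 ha a0 za ai
  have mm : Measurable fun x => maj D v z a x * Real.exp (-χ x) :=
    (maj_meas h.sm hz ha).mul hχ.neg.rexp.cont.measurable
  have p0 : ∀ x, 0 ≤ maj D v z a x * Real.exp (-χ x) := fun x =>
    mul_nonneg (maj_nonneg a0 za x) (Real.exp_pos _).le
  obtain ⟨iU, lU⟩ := int_of_lint (f := fun x => U x * (maj D v z a x * Real.exp (-χ x)))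
    (hU.cont.measurable.mul mm) (fun x => mul_nonneg (U0 x) (p0 x)) p0 mi u0 fU
  obtain ⟨iy, -⟩ := int_of_lint (f := fun x => y x * (maj D v z a x * Real.exp (-χ x)))
    (hy.cont.measurable.mul mm) (fun x => mul_nonneg (y0 x) (p0 x)) p0 mi v0 fy
  have hf : D.Sm fun x => th (z x) := hz.comp th_sm
  have l2 : ∀ x, |D.levi (fun p => th (z p) ^ 2) x (v x)| ≤ C2 * maj D v z a x := fun x => by
    rw [RD.Bo.levi_vr v s2 hz]
    obtain ⟨⟨e1, e2⟩, e3⟩ := b2 (z x) (z0 x)
    rcases le_or_gt (z x) 1 with hx | hx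
    · refine (abs_add_le _ _).trans (le_trans ?_ (mul_le_mul_of_nonneg_left (maj_ge a0 za hx) c2))
      rw [abs_mul, abs_mul, mul_add, abs_of_nonneg (sq_nonneg ‖D.vr v z x‖)]
      exact add_le_add (mul_le_mul_of_nonneg_right e1 (abs_nonneg _))
        (mul_le_mul_of_nonneg_right e2 (sq_nonneg _))
    · rw [(e3 hx).1, (e3 hx).2, zero_mul, zero_mul, add_zero, abs_zero]
      exact mul_nonneg c2 (maj_nonneg a0 za x)
  have f2 : D.Sq χ (D.vr v fun x => th (z x)) := by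
    refine (mi.const_mul (C1 ^ 2)).mono' (((RD.Bo.vr_sm h.sm hf).cont.norm.pow 2).mul
      hχ.neg.rexp.cont).aestronglyMeasurable (.of_forall fun x => ?_)
    rw [Real.norm_of_nonneg (by positivity), ← mul_assoc]
    refine mul_le_mul_of_nonneg_right ?_ (Real.exp_pos _).le
    rw [RD.Bo.vr_comp v th_sm hz, norm_mul, mul_pow, norm_real, Real.norm_eq_abs]
    obtain ⟨⟨e1, -⟩, e3⟩ := b1 (z x) (z0 x)
    rcases le_or_gt (z x) 1 with hx | hx
    · exact mul_le_mul (pow_le_pow_left₀ (abs_nonneg _) e1 2)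
        ((le_add_of_nonneg_left (abs_nonneg _)).trans (maj_ge a0 za hx)) (sq_nonneg _) (sq_nonneg _)
    · rw [(e3 hx).1, abs_zero, sq, zero_mul, zero_mul]
      exact mul_nonneg (sq_nonneg _) (maj_nonneg a0 za x)
  have t1 : ∀ x, th (z x) ^ 2 ≤ 1 := fun x => by
    rw [← sq_abs]; exact pow_le_one₀ (abs_nonneg _) (th_abs _)
  have ki' : Integrable (fun x => th (z x) ^ 2 * k x * Real.exp (-χ x)) D.μ := by
    simpa only [mul_assoc] using ki.bdd_mul (c := 1) (f := fun x => th (z x) ^ 2)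
      (hf.cont.pow 2).aestronglyMeasurable (.of_forall fun x => (Real.norm_of_nonneg (sq_nonneg _)).trans_le (t1 x))
  have lc := (RD.Bo.lv_sm (hz.comp s2) h.sm).cont
  have dom : ∀ g : S → ℝ, Continuous g → (∀ x, 0 ≤ g x) →
      ∀ x, ‖g x * D.levi (fun p => th (z p) ^ 2) x (v x) * Real.exp (-χ x)‖ ≤
        C2 * (g x * (maj D v z a x * Real.exp (-χ x))) := fun g _ g0 x => by
    rw [norm_mul, norm_mul, Real.norm_of_nonneg (g0 x), Real.norm_of_nonneg (Real.exp_pos _).le,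
      Real.norm_eq_abs]
    refine (mul_le_mul_of_nonneg_right (mul_le_mul_of_nonneg_left (l2 x) (g0 x))
      (Real.exp_pos _).le).trans_eq (by ring)
  obtain ⟨i1, le1⟩ := h.t2 hχ hy y0 yi hQ hf hU (C := C) (fun x => th_abs _) f2
    (fun x hx => ⟨U0 x, UC x (closure_minimal (t := {x | z x ≤ 1}) (fun p (hp : th (z p) ≠ 0) =>
      not_lt.1 fun c => hp (th_zero c.le)) (isClosed_le hz.cont continuous_const) hx)⟩)
    k0 (fun x _ => hk x) ki'
    (((mi.add iy).const_mul C2).mono' (((continuous_const.add hy.cont).mul lc).mul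
      hχ.neg.rexp.cont).aestronglyMeasurable (.of_forall fun x =>
        (dom (fun x => 1 + y x) (continuous_const.add hy.cont)
          (fun x => add_nonneg zero_le_one (y0 x)) x).trans_eq (by simp only [Pi.add_apply]; ring)))
  simp only [mul_add, add_mul]
  refine ⟨i1.add ki', ?_⟩
  rw [integral_add i1 ki', add_comm]
  refine add_le_add (integral_mono ki' ki fun x => mul_le_mul_of_nonneg_right
    (mul_le_of_le_one_left (k0 x) (t1 x)) (Real.exp_pos _).le) (le1.trans ?_)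
  refine (le_abs_self _).trans ((norm_integral_le_of_norm_le (iU.const_mul C2)
    (.of_forall (dom U hU.cont U0))).trans ?_)
  rw [integral_const_mul]
  have := mul_le_mul_of_nonneg_left (lU.trans (mul_le_mul_of_nonneg_left mle u0)) c2
  linarith

end Iv

end

end Pool.Agent.Lib.MP_5c318e_ag
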