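import Pool.Agent.Lib.MP_5c318e_ag.Iv.Lev

/-! The variational inequality for almost invariant functions. -/

set_option autoImplicit false
set_option linter.unusedSectionVars false

namespace Pool.Agent.Lib.MP_5c318e_ag

open MeasureTheory Set Filter Topology Complex
open scoped ContDiff
open Pool.Agent.Lib.MP_9ff3e7_ag

noncomputable section

variable {ν K M : Type} [Fintype ν] [DecidableEq ν] [Field K] [Algebra ℂ K] [Field M] [Algebra ℂ M]
  [Algebra K M] [IsScalarTower ℂ K M] {B : Cht Unit K}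

open Iv

variable {T : Rel B ν M} {χ y Φ α : Pt T.X.O → ℝ} {v : Pt T.X.O → Unit ⊕ ν → ℂ}
  {P : Pt B.O → ℝ} {E : ℝ}

theorem Rel.Tan.e4s (h : T.Tan χ y Φ α v P E) : ∃ C : ℝ, 0 ≤ C ∧ ∀ ε u, 0 ≤ ε →
    T.Adm χ y Φ v P ε u → T.X.D.Sq χ (T.X.D.vr v fun x => sg (u x)) ∧
      T.X.D.en χ (T.X.D.vr v fun x => sg (u x)) ≤ C * ε :=
  h.e4g (G := sg) sg_sm zero_le_one fun r => by
    rw [one_mul, sq]
    refine mul_le_of_le_one_left (sg_pos r).le ?_
    rw [sg_deriv, div_le_one (pow_pos (one_exp r) 2)]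
    nlinarith [Real.exp_pos r]

/-- the logistic function of an admissible function is almost invariant -/
theorem Rel.Tan.e4 (h : T.Tan χ y Φ α v P E) : ∃ C : ℝ, 0 ≤ C ∧ ∀ ε u, 0 ≤ ε → T.Adm χ y Φ v P ε u →
    T.X.D.Sq χ (T.X.D.vr v fun x => Real.exp (u x) / (1 + Real.exp (u x))) ∧
      T.X.D.en χ (T.X.D.vr v fun x => Real.exp (u x) / (1 + Real.exp (u x))) ≤ C * ε := by
  have := h.e4s
  unfold sg at this
  exact this

theorem Rel.Tan.inv (h : T.Tan χ y Φ α v P E) {δ : ℝ} (hδ : 0 < δ) : ∃ ε : ℝ, 0 < ε ∧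
    ∀ u, T.Adm χ y Φ v P ε u → ∀ γ : ℝ, 0 ≤ γ → γ ≤ 1 →
      ∫⁻ x in {x | 0 ≤ u x}, ENNReal.ofReal (T.X.D.levi Φ x (v x) * Real.exp (-χ x)) ∂T.X.D.μ ≤
        ENNReal.ofReal (2 * E) *
          ∫⁻ x, ENNReal.ofReal (Real.exp (γ * u x) * α x * Real.exp (-χ x)) ∂T.X.D.μ +
        ENNReal.ofReal δ := by
  obtain ⟨C1, c1, h1⟩ := h.e4s
  obtain ⟨C2, c2, h2⟩ := h.star (δ / 4) (by positivity)
  have d0 : 0 < δ / 4 / (C2 + 1) := by positivity
  refine ⟨(δ / 4 / (C2 + 1)) ^ 2 / (C1 + 1), by positivity, fun u hu γ γ0 γ1 => ?_⟩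
  obtain ⟨sq, en⟩ := h1 _ u (by positivity) hu
  have hf : T.X.D.Sm fun x => sg (u x) := hu.sm.comp sg_sm
  have st := h2 (fun x => sg (u x)) 1 zero_le_one hf (fun x => sg_mem _) sq
  have e1 : C2 * √(T.X.D.en χ (T.X.D.vr v fun x => sg (u x))) ≤ δ / 4 := by
    have : √(T.X.D.en χ (T.X.D.vr v fun x => sg (u x))) ≤ δ / 4 / (C2 + 1) := by
      refine Real.sqrt_le_iff.2 ⟨d0.le, le_trans en ?_⟩
      rw [mul_div_assoc', div_le_iff₀ (by positivity), mul_comm, mul_add]
      exact le_add_of_nonneg_right (by positivity)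
    refine (mul_le_mul_of_nonneg_left this c2).trans ?_
    rw [mul_div_assoc', div_le_iff₀ (by positivity), mul_comm, mul_add]
    exact le_add_of_nonneg_right (by positivity)
  have bd : ∀ {g : Pt T.X.O → ℝ}, Integrable g T.X.D.μ →
      Integrable (fun x => sg (u x) * g x) T.X.D.μ := fun hg =>
    hg.bdd_mul (c := 1) hf.cont.aestronglyMeasurable
      (.of_forall fun x => (Real.norm_of_nonneg (sg_mem _).1).trans_le (sg_mem _).2)
  have p1 : ∀ x, 0 ≤ T.X.D.levi Φ x (v x) * Real.exp (-χ x) := fun x =>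
    mul_nonneg (h.psh.2 _ _) (Real.exp_pos _).le
  have p2 : ∀ x, 0 ≤ α x * Real.exp (-χ x) := fun x => mul_nonneg (h.α0 _) (Real.exp_pos _).le
  simp only [mul_assoc] at st
  calc _ ≤ ∫⁻ x in {x | 0 ≤ u x}, ENNReal.ofReal
          (2 * (sg (u x) * (T.X.D.levi Φ x (v x) * Real.exp (-χ x)))) ∂T.X.D.μ :=
        setLIntegral_mono' (measurableSet_le measurable_const hu.sm.cont.measurable) fun x hx => by
          refine ENNReal.ofReal_le_ofReal ?_
          rw [← mul_assoc]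
          refine le_mul_of_one_le_left (p1 x) ?_
          rw [sg, mul_div_assoc', one_le_div (one_exp _)]
          linarith [Real.one_le_exp (show 0 ≤ u x from hx)]
    _ ≤ _ := setLIntegral_le_lintegral _ _
    _ = ENNReal.ofReal (2 * ∫ x, sg (u x) * (T.X.D.levi Φ x (v x) * Real.exp (-χ x)) ∂T.X.D.μ) := by
        rw [← integral_const_mul, ofReal_integral_eq_lintegral_ofReal ((bd h.l2.2).const_mul 2)
          (.of_forall fun x => mul_nonneg zero_le_two (mul_nonneg (sg_mem _).1 (p1 x)))]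
    _ ≤ ENNReal.ofReal (2 * E * (∫ x, sg (u x) * (α x * Real.exp (-χ x)) ∂T.X.D.μ) + δ) :=
        ENNReal.ofReal_le_ofReal (by linarith)
    _ ≤ _ := by
        refine ENNReal.ofReal_add_le.trans (add_le_add_left ?_ _)
        rw [ENNReal.ofReal_mul (mul_nonneg zero_le_two h.E0), ofReal_integral_eq_lintegral_ofReal
          (bd h.αi) (.of_forall fun x => mul_nonneg (sg_mem _).1 (p2 x))]
        refine mul_le_mul_right (lintegral_mono fun x => ENNReal.ofReal_le_ofReal ?_) _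
        rw [mul_assoc]
        refine mul_le_mul_of_nonneg_right ?_ (p2 x)
        rcases le_total 0 (u x) with hx | hx
        · exact (sg_mem _).2.trans (Real.one_le_exp (mul_nonneg γ0 hx))
        · exact (div_le_self (Real.exp_pos _).le (by linarith [Real.exp_pos (u x)])).trans
            (Real.exp_le_exp.2 (by nlinarith))

end

end Pool.Agent.Lib.MP_5c318e_ag
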