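import Pool.Agent.Lib.MP_5c318e_ag.Iv.Core
import Pool.Agent.Lib.MP_5c318e_ag.Iv.Defs
import Pool.Agent.Lib.MP_5c318e_ag.Me.Met
import Pool.Agent.Lib.MP_5c318e_ag.S.CFub
import Pool.Agent.Lib.MP_5c318e_ag.W.FibRed
import Pool.Agent.Lib.MP_5c318e_ag.W.LP

/-! Almost plurisubharmonic functions of controlled growth are almost invariant under a tangent
field over a curve. -/

set_option autoImplicit false
set_option linter.unusedSectionVars false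

namespace Pool.Agent.Lib.MP_5c318e_ag

open MeasureTheory Set Filter Topology Complex
open scoped ContDiff
open Pool.Agent.Lib.MP_9ff3e7_ag

noncomputable section

variable {ν K M : Type} [Fintype ν] [DecidableEq ν] [Field K] [Algebra ℂ K] [Field M] [Algebra ℂ M]
  [Algebra K M] [IsScalarTower ℂ K M] {B : Cht Unit K}

namespace Iv

theorem dbar_res {δ : Type} [Fintype δ] [DecidableEq δ] {B : Cht δ K} (T : Rel B ν M)
    {f : Pt B.O → ℂ} (h : B.D.Sm f) (p : Pt T.X.O) (ξ : δ ⊕ ν → ℂ) :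
    T.X.D.dbar (fun p => f (p.res T.inc)) p ξ =
      B.D.dbar f (p.res T.inc) fun i => ξ (Sum.inl i) := by
  have h1 := h.diff (p.res T.inc)
  unfold RD.dbar
  rw [← T.π_res p] at h1 ⊢
  rw [F.dbar_congr ((T.sec_res p).mono fun z e => congrArg f e),
    F.dbar_comp_holo h1 (Rel.ana_inl _).differentiableAt]
  congr 1
  exact congrArg (fun L : (δ ⊕ ν → ℂ) →L[ℂ] δ → ℂ => L ξ) (ContinuousLinearMap.fderiv
    (ContinuousLinearMap.pi fun i => ContinuousLinearMap.proj (R := ℂ) (φ := fun _ : δ ⊕ ν => ℂ)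
      (Sum.inl i)))

variable {T : Rel B ν M} {χ y Φ α u : Pt T.X.O → ℝ} {v : Pt T.X.O → Unit ⊕ ν → ℂ}
  {P : Pt B.O → ℝ} {E ε : ℝ}

theorem levi_one (vt : ∀ x, v x (Sum.inl ()) = 1) {z : Pt B.O → ℝ} (hz : B.D.Sm z) (x : Pt T.X.O) :
    T.X.D.levi (fun p => z (p.res T.inc)) x (v x) = B.D.levi z (x.res T.inc) fun _ => 1 := by
  rw [T.levi_res hz]
  exact congrArg _ (funext fun _ => vt x)

theorem maj_res (vt : ∀ x, v x (Sum.inl ()) = 1) {z : Pt B.O → ℝ} (hz : B.D.Sm z) (a : Pt B.O → ℝ)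
    (x : Pt T.X.O) : maj T.X.D v (fun p => z (p.res T.inc)) (fun p => a (p.res T.inc)) x =
      maj B.D (fun _ _ => 1) z a (x.res T.inc) := by
  have e : ‖T.X.D.vr v (fun p => z (p.res T.inc)) x‖ = ‖B.D.vr (fun _ _ => 1) z (x.res T.inc)‖ := by
    rw [← norm_conj, ← RD.Bo.dbar_vr v (T.sm_res hz), dbar_res T hz.ofReal,
      ← norm_conj (B.D.vr _ _ _), ← RD.Bo.dbar_vr _ hz]
    exact congrArg (fun ξ => ‖B.D.dbar _ _ ξ‖) (funext fun _ => vt x)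
  simp only [maj, en0, levi_one vt hz, e]

theorem fub {H : Pt B.O → ℝ} (hH : Measurable H) (H0 : ∀ b, 0 ≤ H b) {f ρ : Pt T.X.O → ℝ}
    (hf : Measurable f) (hρ : Measurable ρ) {c c1 : ℝ} (c0 : 0 < c) (h1 : 0 ≤ c1)
    (low : ∀ᵐ b ∂B.D.μ, ENNReal.ofReal c ≤ ∫⁻ x, ENNReal.ofReal (ρ x.1) ∂(T.fib b).μ)
    (h : ∀ᵐ b ∂B.D.μ, H b ≠ 0 →
      ∫⁻ x, ENNReal.ofReal (f x.1 * ρ x.1) ∂(T.fib b).μ ≤ ENNReal.ofReal c1) :
    ∫⁻ x, ENNReal.ofReal (f x * (H (x.res T.inc) * ρ x)) ∂T.X.D.μ ≤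
      ENNReal.ofReal (c1 / c) * ∫⁻ x, ENNReal.ofReal (H (x.res T.inc) * ρ x) ∂T.X.D.μ := by
  have m := (hH.comp (Pt.continuous_res T.inc).measurable).mul hρ
  rw [(T.fubini (G := fun x => ENNReal.ofReal (f x * (H (x.res T.inc) * ρ x)))
      (hf.mul m).ennreal_ofReal).2,
    (T.fubini (G := fun x => ENNReal.ofReal (H (x.res T.inc) * ρ x)) m.ennreal_ofReal).2,
    ← lintegral_const_mul' _ _ ENNReal.ofReal_ne_top]
  refine lintegral_mono_ae ?_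
  filter_upwards [low, h] with b l1 l2
  have e1 : ∀ x : T.Fib b, ENNReal.ofReal (f x.1 * (H (x.1.res T.inc) * ρ x.1)) =
      ENNReal.ofReal (H b) * ENNReal.ofReal (f x.1 * ρ x.1) := fun x => by
    rw [x.2, mul_left_comm, ENNReal.ofReal_mul (H0 b)]
  have e2 : ∀ x : T.Fib b, ENNReal.ofReal (H (x.1.res T.inc) * ρ x.1) =
      ENNReal.ofReal (H b) * ENNReal.ofReal (ρ x.1) := fun x => by
    rw [x.2, ENNReal.ofReal_mul (H0 b)]
  simp only [e1, e2]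
  rw [lintegral_const_mul' _ _ ENNReal.ofReal_ne_top, lintegral_const_mul' _ _ ENNReal.ofReal_ne_top]
  by_cases hb : H b = 0
  · simp [hb]
  rw [mul_left_comm]
  refine mul_le_mul_right ((l2 hb).trans (le_trans ?_ (mul_le_mul_right l1 _))) _
  rw [← ENNReal.ofReal_mul (by positivity), div_mul_cancel₀ _ c0.ne']

theorem fub_ch {H : Pt B.O → ℝ} (hH : Measurable H) (H0 : ∀ b, 0 ≤ H b) {f ρ : Pt T.X.O → ℝ}
    (hf : Measurable f) (hρ : Measurable ρ) (ρ0 : ∀ x, 0 ≤ ρ x) {c : ℝ} (c0 : 0 ≤ c)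
    (h : ∫⁻ x, ENNReal.ofReal (f x * (H (x.res T.inc) * ρ x)) ∂T.X.D.μ ≤
      ENNReal.ofReal c * ∫⁻ x, ENNReal.ofReal (H (x.res T.inc) * ρ x) ∂T.X.D.μ) :
    ∫⁻ x, ENNReal.ofReal (ch (f x) * (H (x.res T.inc) * ρ x)) ∂T.X.D.μ ≤
      ENNReal.ofReal (c + 1) * ∫⁻ x, ENNReal.ofReal (H (x.res T.inc) * ρ x) ∂T.X.D.μ := by
  have m : Measurable fun x : Pt T.X.O => H (x.res T.inc) * ρ x :=
    (hH.comp (Pt.continuous_res T.inc).measurable).mul hρ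
  have m2 : Measurable fun x : Pt T.X.O => ENNReal.ofReal (f x * (H (x.res T.inc) * ρ x)) :=
    (hf.mul m).ennreal_ofReal
  rw [ENNReal.ofReal_add c0 zero_le_one, ENNReal.ofReal_one, add_mul, one_mul]
  refine le_trans ?_ (add_le_add_left h _)
  rw [← lintegral_add_left m2]
  refine lintegral_mono fun x => ?_
  have p := mul_nonneg (H0 (x.res T.inc)) (ρ0 x)
  refine (ENNReal.ofReal_le_ofReal (mul_le_mul_of_nonneg_right (ch_le _) p)).trans ?_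
  rw [add_mul, one_mul, max_mul_of_nonneg _ _ p, zero_mul]
  refine ENNReal.ofReal_add_le.trans (add_le_add_left (le_of_eq ?_) _)
  rw [ENNReal.ofReal_max, ENNReal.ofReal_zero, max_eq_left zero_le]

/-- the function with a regularised logarithmic pole along `g = 0` -/
def pole (P : Pt B.O → ℝ) (g : B.O) (N κ : ℝ) (b : Pt B.O) : ℝ :=
  N * P b + N - Real.log (‖b g‖ ^ 2 + κ)

theorem exists_pole (hP : B.D.Psh P) (P0 : ∀ b, 0 ≤ P b) {g : B.O} (md : Md P fun b => ‖b g‖) :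
    ∃ N : ℝ, 0 ≤ N ∧ (∀ b : Pt B.O, Real.log (‖b g‖ ^ 2 + 1) ≤ N * P b + N) ∧ ∀ κ, 0 < κ → κ ≤ 1 →
      B.D.Sm (pole P g N κ) ∧ (∀ b, 0 ≤ pole P g N κ b) ∧
        ∀ b ξ, B.D.levi (pole P g N κ) b ξ ≤ N * B.D.levi P b ξ := by
  obtain ⟨A, A0, hA⟩ := md
  have h1 : ∀ b : Pt B.O, Real.log (‖b g‖ ^ 2 + 1) ≤ (2 * A + 1) * P b + (2 * A + 1) := fun b => by
    have e1 := pow_le_pow_left₀ (norm_nonneg _) (hA b) 2
    have e2 := Real.one_le_exp (x := A * P b + A) (by have := P0 b; positivity)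
    have e3 := Real.add_one_le_exp (P b + 1)
    rw [Real.log_le_iff_le_exp (by positivity), show (2 * A + 1) * P b + (2 * A + 1) =
      (A * P b + A) + (A * P b + A) + (P b + 1) by ring, Real.exp_add, Real.exp_add]
    nlinarith [P0 b, mul_le_mul e2 e2 zero_le_one (Real.exp_pos _).le]
  refine ⟨2 * A + 1, by positivity, h1, fun κ k0 k1 => ?_⟩
  have p : B.D.Psh fun b : Pt B.O => Real.log (‖b g‖ ^ 2 + κ) := by
    simpa using RD.WP.psh_sos (D := B.D) {()} (f := fun _ b => b g) (fun _ _ => B.hol g) k0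
  have s1 : B.D.Sm fun b => (2 * A + 1) * P b := (RD.sm_const _).mul hP.1
  refine ⟨(s1.add (RD.sm_const _)).sub p.1, fun b => sub_nonneg.2
    ((Real.log_le_log (by positivity) (by linarith)).trans (h1 b)), fun b ξ => ?_⟩
  unfold pole
  rw [RD.levi_dif (s1.add (RD.sm_const _)) p.1, RD.levi_add s1 (RD.sm_const _), RD.levi_cmul _ hP.1,
    RD.T2.levi_const]
  linarith [p.2 b ξ]

theorem pole_low {g : B.O} {N κ r : ℝ} {b : Pt B.O} (N0 : 0 ≤ N) (P0 : 0 ≤ P b) (k0 : 0 < κ)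
    (hk : 2 * κ ≤ Real.exp (-r)) (h : pole P g N κ b ≤ r) : Real.exp (-r) ≤ 2 * ‖b g‖ ^ 2 := by
  have : -r ≤ Real.log (‖b g‖ ^ 2 + κ) := by
    unfold pole at h
    linarith [mul_nonneg N0 P0]
  rw [Real.le_log_iff_exp_le (by positivity)] at this
  linarith

theorem pole_up {g : B.O} {N κ : ℝ} {b : Pt B.O} (k0 : 0 < κ) (h : b g ≠ 0) :
    pole P g N κ b ≤ pole P g N 0 b := by
  have := norm_pos_iff.2 h
  exact sub_le_sub_left (Real.log_le_log (by positivity) (by linarith)) _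

theorem unif (y0 : ∀ x, 0 ≤ y x) {Q : Set (Pt B.O)} (hQ : IsCompact Q)
    (h : ∀ b0 ∈ Q, ∃ C : ℝ, ∀ᶠ b in 𝓝 b0, ∀ x : T.Fib b, u x.1 ≤ C * y x.1 + C) :
    ∃ C : ℝ, ∀ b ∈ Q, ∀ x : T.Fib b, u x.1 ≤ C * y x.1 + C := by
  refine hQ.induction_on (p := fun s => ∃ C : ℝ, ∀ b ∈ s, ∀ x : T.Fib b, u x.1 ≤ C * y x.1 + C)
    ⟨0, fun _ h => h.elim⟩ (fun s t st ⟨C, h⟩ => ⟨C, fun b hb => h b (st hb)⟩)
    (fun s t ⟨C, h⟩ ⟨C', h'⟩ => ⟨max C C', fun b hb x => ?_⟩) fun b0 hb =>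
      let ⟨C, h⟩ := h b0 hb
      ⟨_, mem_nhdsWithin_of_mem_nhds h, C, fun _ hb => hb⟩
  rcases hb with hb | hb
  · exact (h b hb x).trans (add_le_add (mul_le_mul_of_nonneg_right (le_max_left _ _) (y0 _))
      (le_max_left _ _))
  · exact (h' b hb x).trans (add_le_add (mul_le_mul_of_nonneg_right (le_max_right _ _) (y0 _))
      (le_max_right _ _))

theorem levi_ch (hu : T.X.D.Sm u) {k : ℝ} {x : Pt T.X.O} (k0 : 0 ≤ k)
    (h : -k ≤ T.X.D.levi u x (v x)) : deriv sg (u x) * ‖T.X.D.vr v u x‖ ^ 2 ≤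
      T.X.D.levi (fun p => ch (u p)) x (v x) + k := by
  rw [RD.Bo.levi_vr v ch_sm hu, ch_deriv]
  nlinarith [(sg_mem (u x)).1, (sg_mem (u x)).2]

end Iv

open Iv

variable {T : Rel B ν M} {χ y Φ α : Pt T.X.O → ℝ} {v : Pt T.X.O → Unit ⊕ ν → ℂ}
  {P : Pt B.O → ℝ} {E : ℝ}

/-- one level of the cutoff -/
theorem Rel.Tan.level (h : T.Tan χ y Φ α v P E) : ∃ C : ℝ, 0 ≤ C ∧ ∀ ε u, 0 ≤ ε →
    T.Adm χ y Φ v P ε u → ∃ (g : B.O) (z : ℝ → Pt B.O → ℝ) (D : ℝ), g ≠ 0 ∧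
      (∀ b : Pt B.O, b g ≠ 0 → ∃ c, ∀ Z, 1 ≤ Z → z Z b ≤ Z⁻¹ * c) ∧ ∀ Z : ℝ, 1 ≤ Z →
      (∀ b, 0 ≤ z Z b) ∧ (∀ b, z Z b ≤ 1 → b g ≠ 0) ∧
      Integrable (fun x => th (z Z (x.res T.inc)) ^ 2 * (T.X.D.levi (fun p => ch (u p)) x (v x) +
        ε * T.X.D.levi Φ x (v x)) * Real.exp (-χ x)) T.X.D.μ ∧
      ∫ x, th (z Z (x.res T.inc)) ^ 2 * (T.X.D.levi (fun p => ch (u p)) x (v x) +
        ε * T.X.D.levi Φ x (v x)) * Real.exp (-χ x) ∂T.X.D.μ ≤ C * ε + D * Z⁻¹ := by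
  classical
  obtain ⟨C0, c0, hc⟩ := core (D := T.X.D)
  obtain ⟨A, hA⟩ := h.le
  obtain ⟨c, cp, low⟩ := h.low
  obtain ⟨Cy, ym⟩ := h.ym
  have one : ∀ j : Unit, B.D.Sm fun b : Pt B.O => (fun _ _ => (1 : ℂ)) b j := fun _ => RD.sm_const _
  have lc : Continuous fun b => B.D.levi P b fun _ => 1 := (RD.Bo.lv_sm h.exh.1.1 one).cont
  have ec := h.smχ.neg.rexp.cont
  have iP : Integrable (fun x : Pt T.X.O => B.D.levi P (x.res T.inc) (fun _ => 1) *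
      Real.exp (-χ x)) T.X.D.μ := by
    refine (h.l2.2.const_mul A).mono' ((lc.comp (Pt.continuous_res T.inc)).mul
      ec).aestronglyMeasurable (.of_forall fun x => ?_)
    rw [Real.norm_of_nonneg (mul_nonneg (h.exh.1.2 _ _) (Real.exp_pos _).le), ← mul_assoc]
    refine mul_le_mul_of_nonneg_right (le_trans (le_of_eq ?_) (hA x (v x))) (Real.exp_pos _).le
    exact congrArg _ (funext fun _ => (h.vt x).symm)
  obtain ⟨IP, eP⟩ : ∃ r, r = ∫ x : Pt T.X.O, B.D.levi P (x.res T.inc) (fun _ => 1) *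
    Real.exp (-χ x) ∂T.X.D.μ := ⟨_, rfl⟩
  obtain ⟨IΦ, eΦ⟩ : ∃ r, r = ∫ x, T.X.D.levi Φ x (v x) * Real.exp (-χ x) ∂T.X.D.μ := ⟨_, rfl⟩
  have IP0 : 0 ≤ IP :=
    eP ▸ integral_nonneg fun x => mul_nonneg (h.exh.1.2 _ _) (Real.exp_pos _).le
  have IΦ0 : 0 ≤ IΦ := eΦ ▸ integral_nonneg fun x => mul_nonneg (h.psh.2 _ _) (Real.exp_pos _).le
  refine ⟨IΦ + C0 * 2 * IP / c, by positivity, fun ε u ε0 hu => ?_⟩
  obtain ⟨g, gn, loc⟩ := hu.loc
  obtain ⟨Cf, fib⟩ := hu.fib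
  obtain ⟨N, N1, -, p1⟩ := exists_pole h.exh.1 h.P0 (h.md g)
  have hU : T.X.D.Sm fun p => ch (u p) := hu.sm.comp ch_sm
  have k0 : ∀ x, 0 ≤ ε * T.X.D.levi Φ x (v x) := fun x => mul_nonneg ε0 (h.psh.2 _ _)
  obtain ⟨κ, eκ⟩ : ∃ κ : ℝ → ℝ, ∀ Z, κ Z = Real.exp (-(Z * (N + 1))) / 2 := ⟨_, fun _ => rfl⟩
  have κ0 : ∀ Z, 0 < κ Z := fun Z => eκ Z ▸ half_pos (Real.exp_pos _)
  have N2 : 0 < N + 1 := by positivity
  refine ⟨g, fun Z b => Z⁻¹ * (P b + (N + 1)⁻¹ * pole P g N (κ Z) b), C0 * 2 * IP * (|Cf| / c + 1),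
    gn, fun b hb => ⟨P b + (N + 1)⁻¹ * pole P g N 0 b, fun Z Z1 => mul_le_mul_of_nonneg_left
      (add_le_add_right (mul_le_mul_of_nonneg_left (pole_up (κ0 _) hb) (inv_pos.2 N2).le) _)
      (inv_nonneg.2 (zero_le_one.trans Z1))⟩, fun Z Z1 => ?_⟩
  have Z0 : 0 < Z := one_pos.trans_le Z1
  have κ1 : κ Z ≤ 1 := eκ Z ▸ (half_le_self (Real.exp_pos _).le).trans
    (Real.exp_le_one_iff.2 (neg_nonpos.2 (mul_pos Z0 N2).le))
  obtain ⟨b1, b2, b3⟩ := p1 _ (κ0 Z) κ1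
  have s1 := (RD.sm_const (D := B.D) (N + 1)⁻¹).mul b1
  have s2 := h.exh.1.1.add s1
  obtain ⟨z, ez⟩ : ∃ z : Pt B.O → ℝ, z = fun b => Z⁻¹ * (P b + (N + 1)⁻¹ * pole P g N (κ Z) b) :=
    ⟨_, rfl⟩
  have ez' : ∀ b, Z⁻¹ * (P b + (N + 1)⁻¹ * pole P g N (κ Z) b) = z b := fun b => by rw [ez]
  simp only [ez']
  have hz : B.D.Sm z := ez ▸ (RD.sm_const _).mul s2
  have e2 : ∀ b, 0 ≤ (N + 1)⁻¹ * pole P g N (κ Z) b := fun b => mul_nonneg (inv_pos.2 N2).le (b2 b)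
  have z0 : ∀ b, 0 ≤ z b := fun b =>
    ez' b ▸ mul_nonneg (inv_pos.2 Z0).le (add_nonneg (h.P0 b) (e2 b))
  have z1 : ∀ b, z b ≤ 1 → P b ≤ Z ∧ κ Z ≤ ‖b g‖ ^ 2 := fun b hb => by
    have e := (inv_mul_le_iff₀ Z0).1 (ez' b ▸ hb)
    have e3 : (N + 1)⁻¹ * pole P g N (κ Z) b ≤ Z := by linarith [h.P0 b]
    have := pole_low (r := Z * (N + 1)) N1 (h.P0 b) (κ0 Z) (by rw [eκ]; linarith)
      (by rw [mul_comm]; exact (inv_mul_le_iff₀ N2).1 e3)
    exact ⟨by linarith [e2 b], by rw [eκ]; linarith⟩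
  have z2 : ∀ b : Pt B.O, κ Z ≤ ‖b g‖ ^ 2 → b g ≠ 0 := fun b hb e => by
    rw [e, norm_zero, sq, mul_zero] at hb
    exact (κ0 Z).not_ge hb
  have za : ∀ b, B.D.levi z b (fun _ => 1) ≤ 2 / Z * B.D.levi P b fun _ => 1 := fun b => by
    have e1 := h.exh.1.2 b fun _ => 1
    have e2 : (N + 1)⁻¹ * B.D.levi (pole P g N (κ Z)) b (fun _ => 1) ≤ B.D.levi P b fun _ => 1 :=
      (inv_mul_le_iff₀ N2).2 ((b3 b _).trans (by rw [add_mul]; linarith))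
    rw [ez, RD.levi_cmul _ s2, RD.levi_add h.exh.1.1 s1, RD.levi_cmul _ b1, div_eq_inv_mul,
      mul_assoc]
    exact mul_le_mul_of_nonneg_left (by linarith) (inv_pos.2 Z0).le
  have a0 : ∀ b, 0 ≤ 2 / Z * B.D.levi P b fun _ => 1 := fun b =>
    mul_nonneg (by positivity) (h.exh.1.2 _ _)
  have mH := maj_meas (a := fun b => 2 / Z * B.D.levi P b fun _ => 1) one hz
    (continuous_const.mul lc)
  have H0 := maj_nonneg (D := B.D) (v := fun _ _ => 1) a0 za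
  obtain ⟨CQ, hQ⟩ := unif (u := u) h.y0 ((h.exh.2 Z).inter_right (isClosed_le continuous_const
    ((Pt.continuous_apply g).norm.pow 2) : IsClosed {b : Pt B.O | κ Z ≤ ‖b g‖ ^ 2}))
    fun b hb => loc b (z2 b hb.2)
  have c1 : 0 ≤ ε * Z + |Cf| := by positivity
  have mr := maj_res h.vt hz fun b => 2 / Z * B.D.levi P b fun _ => 1
  obtain ⟨i, le⟩ := hc (z := fun p => z (p.res T.inc))
    (a := fun p => 2 / Z * B.D.levi P (p.res T.inc) fun _ => 1) h.smχ h.fl h.smy h.y0 h.yi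
    h.tan (T.sm_res hz) (fun x => z0 _)
    (continuous_const.mul (lc.comp (Pt.continuous_res T.inc))) (fun x => a0 _)
    (fun x => (levi_one h.vt hz x).trans_le (za _))
    (by simpa only [mul_assoc] using iP.const_mul _) hU (fun x => ch_nonneg _)
    ⟨|CQ| + 1, fun x hx => by
      have e := hQ _ ⟨(z1 _ hx).1, (z1 _ hx).2⟩ ⟨x, rfl⟩
      have e1 := mul_le_mul_of_nonneg_right (le_abs_self CQ) (h.y0 x)
      have e2 := mul_nonneg (abs_nonneg CQ) (h.y0 x)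
      refine (ch_le _).trans ?_
      rw [add_mul, ← le_sub_iff_add_le]
      exact max_le (by linarith [le_abs_self CQ, h.y0 x]) (by linarith [abs_nonneg CQ, h.y0 x])⟩
    k0 (fun x => by
      linarith [levi_ch (v := v) hu.sm (k0 x) (hu.lev x),
        mul_nonneg (sg_pos (u x)).le (sq_nonneg ‖T.X.D.vr v u x‖)])
    (by simpa only [mul_assoc] using h.l2.2.const_mul ε)
    (add_nonneg (div_nonneg c1 cp.le) zero_le_one) (div_nonneg (abs_nonneg Cy) cp.le)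
    (by
      simp only [mr]
      refine fub_ch mH H0 hu.sm.cont.measurable ec.measurable (fun _ => (Real.exp_pos _).le)
        (div_nonneg c1 cp.le) (fub mH H0 hu.sm.cont.measurable ec.measurable cp c1 low ?_)
      filter_upwards [fib] with b f1 hb
      exact f1.trans (ENNReal.ofReal_le_ofReal (add_le_add (mul_le_mul_of_nonneg_left
        (z1 b (not_lt.1 fun e => hb (if_neg e.not_ge))).1 ε0) (le_abs_self _))))
    (by
      simp only [mr]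
      exact fub mH H0 h.smy.cont.measurable ec.measurable cp (abs_nonneg Cy) low
        (ym.mono fun b hb _ => hb.trans (ENNReal.ofReal_le_ofReal (le_abs_self _))))
  refine ⟨z0, fun b hb => z2 b (z1 b hb).2, i, le.trans_eq ?_⟩
  simp only [mul_assoc ε, mul_assoc (2 / Z), integral_const_mul, ← eP, ← eΦ]
  field_simp
  ring

/-- admissible functions are almost invariant -/
theorem Rel.Tan.e4a (h : T.Tan χ y Φ α v P E) : ∃ C : ℝ, 0 ≤ C ∧ ∀ ε u, 0 ≤ ε →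
    T.Adm χ y Φ v P ε u →
    Integrable (fun x => deriv sg (u x) * ‖T.X.D.vr v u x‖ ^ 2 * Real.exp (-χ x)) T.X.D.μ ∧
      ∫ x, deriv sg (u x) * ‖T.X.D.vr v u x‖ ^ 2 * Real.exp (-χ x) ∂T.X.D.μ ≤ C * ε := by
  classical
  obtain ⟨C, C0, hC⟩ := h.level
  refine ⟨C, C0, fun ε u ε0 hu => ?_⟩
  obtain ⟨g, z, D, gn, zc, key⟩ := hC ε u ε0 hu
  have lk := fun x => levi_ch (v := v) hu.sm (mul_nonneg ε0 (h.psh.2 x _)) (hu.lev x)
  have q0 : ∀ x, 0 ≤ deriv sg (u x) * ‖T.X.D.vr v u x‖ ^ 2 := fun x =>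
    mul_nonneg (sg_pos _).le (sq_nonneg _)
  have Z1 : ∀ n : ℕ, (1 : ℝ) ≤ n + 1 := fun n => le_add_of_nonneg_left n.cast_nonneg
  have lim : Tendsto (fun n : ℕ => ((n : ℝ) + 1)⁻¹) atTop (𝓝 0) := by
    simpa only [one_div] using tendsto_one_div_add_atTop_nhds_zero_nat (𝕜 := ℝ)
  obtain ⟨i, le⟩ := RD.Bo.fatou (G := fun x => if (x.res T.inc) g ≠ 0 then
      (T.X.D.levi (fun p => ch (u p)) x (v x) + ε * T.X.D.levi Φ x (v x)) * Real.exp (-χ x) else 0)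
    (fun n : ℕ => (key _ (Z1 n)).2.2.1)
    (fun n x => mul_nonneg (mul_nonneg (sq_nonneg _) ((q0 x).trans (lk x))) (Real.exp_pos _).le)
    (fun x => by
      split_ifs with hx
      · obtain ⟨c, hc⟩ := zc _ hx
        have t : Tendsto (fun n : ℕ => z (n + 1) (x.res T.inc)) atTop (𝓝 0) :=
          squeeze_zero (fun n => (key _ (Z1 n)).1 _) (fun n => hc _ (Z1 n))
            (by simpa using lim.mul_const c)
        simpa only [one_pow, one_mul] using (((th_lim t).pow 2).mul_const _).mul_const _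
      · refine tendsto_const_nhds.congr fun n => ?_
        rw [th_zero (not_lt.1 fun e => hx ((key _ (Z1 n)).2.1 _ e.le)), sq, zero_mul, zero_mul,
          zero_mul])
    (C := C * ε + D * 0) ((lim.const_mul _).const_add _) fun n => (key _ (Z1 n)).2.2.2
  have ne : T.inc g ≠ 0 := fun e => gn (Subtype.ext
    ((algebraMap K M).injective (by rw [← T.inc_eq, e]; simp)))
  have b : ∀ᵐ x ∂T.X.D.μ, deriv sg (u x) * ‖T.X.D.vr v u x‖ ^ 2 * Real.exp (-χ x) ≤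
      if (x.res T.inc) g ≠ 0 then (T.X.D.levi (fun p => ch (u p)) x (v x) +
        ε * T.X.D.levi Φ x (v x)) * Real.exp (-χ x) else 0 := by
    filter_upwards [FibRed.ae_ne T.X ne] with x e1
    rw [if_pos (show (x.res T.inc) g ≠ 0 from e1)]
    exact mul_le_mul_of_nonneg_right (lk x) (Real.exp_pos _).le
  have i2 := i.mono' (((((contDiff_infty_iff_deriv.1 sg_sm).2.continuous.comp hu.sm.cont).mul
    ((RD.Bo.vr_sm h.fl.sm hu.sm).cont.norm.pow 2)).mul h.smχ.neg.rexp.cont).aestronglyMeasurable)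
    (b.mono fun x hx => (Real.norm_of_nonneg (mul_nonneg (q0 x) (Real.exp_pos _).le)).trans_le hx)
  exact ⟨i2, ((integral_mono_ae i2 i b).trans le).trans_eq (by ring)⟩

/-- any function of `u` whose derivative is dominated by the logistic one -/
theorem Rel.Tan.e4g (h : T.Tan χ y Φ α v P E) {G : ℝ → ℝ} (hG : ContDiff ℝ ∞ G) {c : ℝ} (c0 : 0 ≤ c)
    (hc : ∀ r, deriv G r ^ 2 ≤ c * deriv sg r) : ∃ C : ℝ, 0 ≤ C ∧ ∀ ε u, 0 ≤ ε →
    T.Adm χ y Φ v P ε u → T.X.D.Sq χ (T.X.D.vr v fun x => G (u x)) ∧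
      T.X.D.en χ (T.X.D.vr v fun x => G (u x)) ≤ C * ε := by
  obtain ⟨C, C0, hC⟩ := h.e4a
  refine ⟨c * C, mul_nonneg c0 C0, fun ε u ε0 hu => ?_⟩
  obtain ⟨i, le⟩ := hC ε u ε0 hu
  have b : ∀ x, ‖T.X.D.vr v (fun x => G (u x)) x‖ ^ 2 * Real.exp (-χ x) ≤
      c * (deriv sg (u x) * ‖T.X.D.vr v u x‖ ^ 2 * Real.exp (-χ x)) := fun x => by
    rw [RD.Bo.vr_comp v hG hu.sm, norm_mul, mul_pow, norm_real, Real.norm_eq_abs, sq_abs,
      ← mul_assoc, ← mul_assoc]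
    exact mul_le_mul_of_nonneg_right (mul_le_mul_of_nonneg_right (hc _) (sq_nonneg _))
      (Real.exp_pos _).le
  have i2 : T.X.D.Sq χ (T.X.D.vr v fun x => G (u x)) := (i.const_mul c).mono'
    (((RD.Bo.vr_sm h.fl.sm (hu.sm.comp hG)).cont.norm.pow 2).mul
      h.smχ.neg.rexp.cont).aestronglyMeasurable
    (.of_forall fun x => (Real.norm_of_nonneg (by positivity)).trans_le (b x))
  refine ⟨i2, (integral_mono i2 (i.const_mul c) b).trans ?_⟩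
  rw [integral_const_mul, mul_assoc]
  exact mul_le_mul_of_nonneg_left le c0

end

end Pool.Agent.Lib.MP_5c318e_ag
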