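import Pool.Agent.Lib.MP_5c318e_ag.Iv.Inv
import Pool.Agent.Lib.MP_5c318e_ag.Sx.SDefs

/-! The invariance inequality for the functions attached to plurisubharmonic weights. -/

set_option autoImplicit false
set_option linter.unusedSectionVars false

namespace Pool.Agent.Lib.MP_5c318e_ag

open MeasureTheory Set Filter Topology
open scoped ENNReal

variable {ν K M : Type} [Fintype ν] [DecidableEq ν] [Field K] [Algebra ℂ K] [Field M] [Algebra ℂ M]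
  [Algebra K M] [IsScalarTower ℂ K M]

namespace Dat.Geo

variable {d : Dat Unit K ν M} (G : d.Geo)

theorem iv_psh : d.T.X.D.Psh G.ph :=
  (Cht.sos_fin fun x : Fin G.na × Fin G.nb => G.ρ x.1 * G.r x.2).psh fun p =>
    one_pos.trans_le (G.one p)

/-- the field `inv` of `Pol` -/
theorem inv_of_tan {y Φ : Pt d.T.X.O → ℝ} {al P : Pt d.B.O → ℝ}
    {W : Pt d.T.X.O → Unit ⊕ ν → ℂ} {E : ℝ}
    (h : d.T.toRel.Tan d.chi y Φ (fun p => al (p.res d.T.inc)) W P E)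
    (hB : ∀ p, d.T.X.D.levi (fun p => Real.log (d.Bs p)) p (W p) = 0)
    (hph : ∀ p ξ, d.T.X.D.levi G.ph p ξ ≤ d.T.X.D.levi Φ p ξ) :
    ∃ E' : ℝ≥0∞, E' ≠ ⊤ ∧ ∀ δ : ℝ, 0 < δ → ∃ ε : ℝ, 0 < ε ∧ ∀ (w : Pt d.T.X.O → ℝ) (e1 A γ : ℝ),
      d.T.X.D.Psh w → 0 ≤ e1 → e1 ≤ ε → 0 ≤ γ → γ ≤ 1 →
      (∃ g : d.B.O, g ≠ 0 ∧ ∀ b0 : Pt d.B.O, b0 g ≠ 0 → ∃ C : ℝ, ∀ᶠ b in 𝓝 b0, ∀ p : d.T.Fib b,
        G.uu w e1 A p.1 ≤ C * y p.1 + C) →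
      (∃ C : ℝ, ∀ᵐ b ∂d.B.D.μ, ∫⁻ p, ENNReal.ofReal (G.uu w e1 A p.1 * d.rho p.1) ∂(d.T.fib b).μ ≤
        ENNReal.ofReal (ε * P b + C)) →
      ∫⁻ p in {p | 0 ≤ G.uu w e1 A p}, ENNReal.ofReal (d.T.X.D.levi Φ p (W p) * d.rho p)
          ∂d.T.X.D.μ ≤
        E' * ∫⁻ p, ENNReal.ofReal (Real.exp (γ * G.uu w e1 A p) * al (p.res d.T.inc) * d.rho p)
          ∂d.T.X.D.μ + ENNReal.ofReal δ := by
  refine ⟨ENNReal.ofReal (2 * E), ENNReal.ofReal_ne_top, fun δ hδ => ?_⟩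
  obtain ⟨ε, ε0, hε⟩ := h.inv hδ
  refine ⟨ε, ε0, fun w e1 A γ hw e0 ee g0 g1 h1 h2 => ?_⟩
  have hχ : ∀ p, Real.exp (-d.chi p) = d.rho p := fun p => by
    rw [chi, neg_neg, rho, Real.rpow_def_of_pos (Bs_pos G.τu p), mul_one_div]
  have sB := (psh_logB G.τu).1
  have s1 : d.T.X.D.Sm fun p => -e1 * G.ph p := (RD.sm_const _).mul G.iv_psh.1
  have s2 : d.T.X.D.Sm fun p => -(d.m : ℝ)⁻¹ * Real.log (d.Bs p) := (RD.sm_const _).mul sB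
  have e : G.uu w e1 A = fun p => w p + -e1 * G.ph p + -(d.m : ℝ)⁻¹ * Real.log (d.Bs p) - A :=
    funext fun p => by unfold uu; ring
  have ad : d.T.Adm d.chi y Φ W P ε (G.uu w e1 A) := by
    refine ⟨e ▸ ((hw.1.add s1).add s2).sub (RD.sm_const A), fun p => ?_, h1,
      by simpa only [hχ] using h2⟩
    rw [e, RD.levi_sub_const ((hw.1.add s1).add s2), RD.levi_add (hw.1.add s1) s2,
      RD.levi_add hw.1 s1, RD.levi_cmul _ G.iv_psh.1, RD.levi_cmul _ sB, hB]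
    nlinarith [hw.2 p (W p), mul_le_mul_of_nonneg_left (hph p (W p)) e0,
      mul_le_mul_of_nonneg_right ee (h.psh.2 p (W p))]
  simpa only [hχ] using hε _ ad γ g0 g1

end Dat.Geo

end Pool.Agent.Lib.MP_5c318e_ag
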